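import Pool.Agent.U108.PV.K

set_option autoImplicit false

/-!
# Primes `m ^ 3 + c` with the digits of `m` restricted, in all initial segments, for almost all `c`

Let `F` be any polynomial with integer coefficients of degree `d ≥ 2` (`F = x ^ 3` is the problem), and let `m` run through
the integers `< b ^ k` whose digits in base `b` are restricted to arbitrary sets of at least two digits, which may depend on
the place. This set of arguments may be very sparse: it may have less than `(b ^ k) ^ ε` elements. For all the integers `c`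
with `|c| ≤ B b ^ (d k)`, except for at most `b ^ (d k) / k ^ U` of them, the primes `|F(m) + c|` have the expected frequency
in ALL initial segments `m < y` of the set: the sum of the logarithms of these primes is, up to `(number of elements) / k ^ U`,
equal to the number of the `m < y` for which `F(m) + c` has no prime factor `≤ b`, times the product of the local densities
of Bateman and Horn over the primes `> b` (truncated ANYWHERE between `k ^ E` and the cube root of `b ^ (d k)`).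

Method (new, `Pool.Agent.U108`): by a multilinear inequality of Weyl type for disjoint windows of digits the values `F(m)`
have an additive energy of high order which is minimal up to a constant (`U108.DP.poly_energy`); hence, on average over
`c`, the primes may be replaced by the sieve model (`U108.PV.dual`, from the theorem `R460.SQ.maxi` of the starting files on
families of small energy); the model is summed over the set by means of the fundamental lemma of the sieve and the
distribution of the set in residue classes (`U108.PV.sieve_S`); a pigeonhole argument on the upper digits gives all `y`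
(`U108.PV.core_y`), and a dual large sieve (`TH204.WR.tail_all`, starting files) all the truncations.

Definition used, from `Pool.Agent.TH872.GQ` (starting files): `S b D k`: the integers `0 ≤ n < b ^ k` whose `i`-th digit in
base `b` lies in `D i`, for all `i < k`.
-/

namespace Pool.Agent.Results.MP_4d57ea_nt.CubesRestrictedDigits
open Finset
open Pool.Agent.TH872.GQ (S)
open Polynomial (X)
open scoped Polynomial

/-- The sum of `log |F(m) + c|` over the `m < y` in `S b D k` for which `|F(m) + c|` is prime. -/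
noncomputable def logs (b k : ℕ) (D : ℕ → Finset ℕ) (F : ℤ[X]) (c : ℤ) (y : ℕ) : ℝ :=
  ∑ m ∈ (S b D k).filter (fun m : ℕ => m < y ∧ (F.eval (m : ℤ) + c).natAbs.Prime), Real.log ((F.eval (m : ℤ) + c).natAbs : ℝ)

/-- The number of the `m < y` in `S b D k` for which `|F(m) + c|` is prime. -/
def primes (b k : ℕ) (D : ℕ → Finset ℕ) (F : ℤ[X]) (c : ℤ) (y : ℕ) : ℕ :=
  ((S b D k).filter (fun m : ℕ => m < y ∧ (F.eval (m : ℤ) + c).natAbs.Prime)).card

open Classical in
/-- The number of the `m < y` in `S b D k` for which `F(m) + c` is not divisible by any prime `p ≤ b`. -/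
noncomputable def loc (b k : ℕ) (D : ℕ → Finset ℕ) (F : ℤ[X]) (c : ℤ) (y : ℕ) : ℕ :=
  ((S b D k).filter (fun m : ℕ => m < y ∧ ∀ p : ℕ, p.Prime → p ≤ b → ¬ (p : ℤ) ∣ F.eval (m : ℤ) + c)).card

/-- `ρ(p)`: the number of the residues `a` modulo `p` for which `p` divides `F(a) + c`. -/
def rho (F : ℤ[X]) (c : ℤ) (p : ℕ) : ℕ := ((range p).filter (fun a : ℕ => (p : ℤ) ∣ F.eval (a : ℤ) + c)).card

/-- The product of `p / (p - 1)` over the primes `p ≤ b` and of `(p - ρ(p)) / (p - 1)` over the primes `b < p ≤ z`. -/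
noncomputable def sing (b z : ℕ) (F : ℤ[X]) (c : ℤ) : ℝ :=
  (∏ p ∈ (Icc 1 b).filter Nat.Prime, (p : ℝ) / ((p : ℝ) - 1)) *
    ∏ p ∈ (Ioc b z).filter Nat.Prime, ((p : ℝ) - rho F c p) / ((p : ℝ) - 1)

/-- The asymptotic formula in all initial segments, with the product truncated anywhere between `k ^ E` and the cube root of
`b ^ (d k)`, where `d` is the degree of `F`. -/
def Asymp (b k E U : ℕ) (D : ℕ → Finset ℕ) (F : ℤ[X]) (c : ℤ) : Prop :=
  ∀ y z : ℕ, k ^ E ≤ z → z ^ 3 ≤ b ^ (F.natDegree * k) →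
    |logs b k D F c y - sing b z F c * loc b k D F c y| ≤ (S b D k).card / (k : ℝ) ^ U

/-- The lower bound: if `F + c` has no fixed prime divisor `p > b` (`ρ(p) < p` for all primes `p > b`), then in every initial
segment with at least the share `1 / k ^ A` of arguments without local obstruction at the primes `≤ b` the number of primes is
at least the share `1 / k ^ (A + 4 d + 5)` of the set. -/
def Lower (b k A : ℕ) (D : ℕ → Finset ℕ) (F : ℤ[X]) (c : ℤ) : Prop :=
  (∀ p : ℕ, p.Prime → b < p → rho F c p < p) → ∀ y : ℕ, (S b D k).card / (k : ℝ) ^ A ≤ loc b k D F c y →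
    (S b D k).card / (k : ℝ) ^ (A + 4 * F.natDegree + 5) ≤ primes b k D F c y

lemma logs_eq (b k : ℕ) (D : ℕ → Finset ℕ) (F : ℤ[X]) (c : ℤ) (y : ℕ) : logs b k D F c y = Pool.Agent.U108.PV.TH b k D F c y := by
  unfold logs Pool.Agent.U108.PV.TH
  rw [← filter_filter, sum_filter (fun n : ℕ => (F.eval (n : ℤ) + c).natAbs.Prime)]
  refine sum_congr rfl fun n _ => ?_
  unfold Pool.Agent.R460.SQ.thp
  rfl

lemma loc_eq (b k : ℕ) (D : ℕ → Finset ℕ) (F : ℤ[X]) (c : ℤ) (y : ℕ) : loc b k D F c y = Pool.Agent.U108.PV.BA b k D F c y := by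
  classical
  unfold loc Pool.Agent.U108.PV.BA
  congr 1
  apply filter_congr
  intro n _
  constructor
  · rintro ⟨h1, h2⟩
    refine ⟨h1, fun p hp => ?_⟩
    rw [Pool.Agent.H373R2.T7.mem_pz] at hp
    exact h2 p hp.2 hp.1
  · rintro ⟨h1, h2⟩
    exact ⟨h1, fun p hp hpb => h2 p (Pool.Agent.H373R2.T7.mem_pz.2 ⟨hpb, hp⟩)⟩

lemma rho_eq (F : ℤ[X]) (c : ℤ) (p : ℕ) : rho F c p = Pool.Agent.TH204.WR.rho F c p := by
  unfold rho Pool.Agent.TH204.WR.rho
  congr 1

lemma sing_eq (b z : ℕ) (F : ℤ[X]) (c : ℤ) : sing b z F c = Pool.Agent.U108.PV.GG b z F c := by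
  unfold sing Pool.Agent.U108.PV.GG
  congr 1
  · unfold Pool.Agent.H373R2.T7.Vz
    have h : (Icc 1 b).filter Nat.Prime = Pool.Agent.H373R2.T7.pz b := by
      ext p
      rw [mem_filter, mem_Icc, Pool.Agent.H373R2.T7.mem_pz]
      constructor
      · rintro ⟨⟨_, h2⟩, h3⟩
        exact ⟨h2, h3⟩
      · rintro ⟨h2, h3⟩
        exact ⟨⟨h3.one_le, h2⟩, h3⟩
    rw [h, ← prod_inv_distrib]
    refine prod_congr rfl fun p hp => ?_
    rw [Pool.Agent.H373R2.T7.mem_pz] at hp
    have hp2 : (2 : ℝ) ≤ p := by exact_mod_cast hp.2.two_le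
    have h3 : (p : ℝ) - 1 ≠ 0 := by linarith
    have h4 : (p : ℝ) ≠ 0 := by linarith
    field_simp
  · refine prod_congr rfl fun p hp => ?_
    rw [mem_filter] at hp
    have hp2 : (2 : ℝ) ≤ p := by exact_mod_cast hp.2.two_le
    have h3 : (p : ℝ) - 1 ≠ 0 := by linarith
    unfold Pool.Agent.TH204.WR.xp
    rw [rho_eq]
    field_simp
    ring

/-- the theorem for a polynomial of degree at least two -/
theorem main (F : ℤ[X]) (hF : 2 ≤ F.natDegree) (b B A U : ℕ) (hb : 2 ≤ b) : ∃ E k₀ : ℕ, ∀ k : ℕ, k₀ ≤ k →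
    ∀ D : ℕ → Finset ℕ, (∀ i < k, D i ⊆ range b ∧ 2 ≤ (D i).card) →
    ∃ Exc : Finset ℤ, (Exc.card : ℝ) ≤ ((b ^ (F.natDegree * k) : ℕ) : ℝ) / (k : ℝ) ^ U ∧
      ∀ c : ℤ, |c| ≤ B * (b : ℤ) ^ (F.natDegree * k) → c ∉ Exc → Asymp b k E U D F c ∧ Lower b k A D F c := by
  classical
  obtain ⟨r, hr⟩ : ∃ r, F.natDegree = r + 2 := ⟨F.natDegree - 2, by omega⟩
  obtain ⟨E, k₀, h⟩ := Pool.Agent.U108.PV.final_pos b r B A U hb F hr
  refine ⟨E, k₀, fun k hk D hD => ?_⟩
  refine ⟨_, by rw [hr]; exact h k hk D hD, ?_⟩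
  intro c hc hcE
  rw [mem_filter, not_and, not_not] at hcE
  have hmem : c ∈ Icc (-((B * b ^ ((r + 2) * k) : ℕ) : ℤ)) ((B * b ^ ((r + 2) * k) : ℕ) : ℤ) := by
    rw [mem_Icc]
    have := abs_le.1 hc
    rw [hr] at this
    push_cast
    exact this
  obtain ⟨h1, h2⟩ := hcE hmem
  constructor
  · intro y z hz1 hz2
    rw [logs_eq, loc_eq, sing_eq]
    exact h1 y z hz1 (by rw [← hr]; exact hz2)
  · intro hp y hy
    rw [loc_eq] at hy
    have h3 := h2 (fun p hp1 hp2 => by rw [← rho_eq]; exact hp p hp1 hp2) y hy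
    rw [hr]
    exact h3

lemma cube_rho (c : ℤ) (p : ℕ) (hp : p.Prime) : rho (X ^ 3) c p < p := by
  unfold rho
  have h1 : (range p).filter (fun a : ℕ => (p : ℤ) ∣ (X ^ 3 : ℤ[X]).eval (a : ℤ) + c) ⊂ range p := by
    rw [filter_ssubset]
    by_contra hcon
    push Not at hcon
    have h2 := hcon 0 (mem_range.2 hp.pos)
    have h3 := hcon 1 (mem_range.2 hp.one_lt)
    simp only [Polynomial.eval_pow, Polynomial.eval_X, Nat.cast_zero, Nat.cast_one] at h2 h3
    have h4 : (p : ℤ) ∣ 1 := by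
      have := dvd_sub h3 h2
      simpa using this
    have h5 := Int.natAbs_dvd_natAbs.2 h4
    simp at h5
    exact hp.one_lt.ne' h5
  have := card_lt_card h1
  rwa [card_range] at this

/-- **Primes `F(m) + c`, in particular `m ^ 3 + c`, with `m` from a sparse set defined by its digits, for almost all `c`.**

(1) Let `F` be a polynomial of degree `d ≥ 2` with integer coefficients, and let `b ≥ 2`, `B`, `A`, `U` be given. There are
`E` and `k₀` such that for all `k ≥ k₀` and ALL sets `D_0, …, D_{k-1}` of at least two digits in base `b`, all the integers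
`c` with `|c| ≤ B b ^ (d k)`, except for at most `b ^ (d k) / k ^ U`, satisfy the asymptotic formula `Asymp` in all initial
segments of `S b D k` and the lower bound `Lower`.

(2) Cubes: for all `b ≥ 2`, `B`, `A`, `U` and large `k`, for all sets of digits as above and for all `c` with
`|c| ≤ B b ^ (3 k)`, with at most `b ^ (3 k) / k ^ U` exceptions: for all `y` for which `m ^ 3 + c` is free of prime factors `≤ b`
for at least `#S / k ^ A` of the `m ∈ S`, `m < y`, at least `#S / k ^ (A + 17)` of the numbers `|m ^ 3 + c|`, `m ∈ S`, `m < y`,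
are prime. -/
theorem result : (∀ F : ℤ[X], 2 ≤ F.natDegree → ∀ b B A U : ℕ, 2 ≤ b → ∃ E k₀ : ℕ, ∀ k : ℕ, k₀ ≤ k →
      ∀ D : ℕ → Finset ℕ, (∀ i < k, D i ⊆ range b ∧ 2 ≤ (D i).card) →
      ∃ Exc : Finset ℤ, (Exc.card : ℝ) ≤ ((b ^ (F.natDegree * k) : ℕ) : ℝ) / (k : ℝ) ^ U ∧
        ∀ c : ℤ, |c| ≤ B * (b : ℤ) ^ (F.natDegree * k) → c ∉ Exc → Asymp b k E U D F c ∧ Lower b k A D F c) ∧
    (∀ b B A U : ℕ, 2 ≤ b → ∃ k₀ : ℕ, ∀ k : ℕ, k₀ ≤ k → ∀ D : ℕ → Finset ℕ, (∀ i < k, D i ⊆ range b ∧ 2 ≤ (D i).card) →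
      ∃ Exc : Finset ℤ, (Exc.card : ℝ) ≤ ((b ^ (3 * k) : ℕ) : ℝ) / (k : ℝ) ^ U ∧
        ∀ c : ℤ, |c| ≤ B * (b : ℤ) ^ (3 * k) → c ∉ Exc → ∀ y : ℕ, (S b D k).card / (k : ℝ) ^ A ≤ loc b k D (X ^ 3) c y →
          (S b D k).card / (k : ℝ) ^ (A + 17) ≤ primes b k D (X ^ 3) c y) := by
  refine ⟨main, ?_⟩
  intro b B A U hb
  have hdeg : (X ^ 3 : ℤ[X]).natDegree = 3 := Polynomial.natDegree_X_pow 3
  obtain ⟨E, k₀, h⟩ := main (X ^ 3) (by rw [hdeg]; norm_num) b B A U hb
  refine ⟨k₀, fun k hk D hD => ?_⟩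
  obtain ⟨Exc, h1, h2⟩ := h k hk D hD
  rw [hdeg] at h1 h2
  refine ⟨Exc, h1, fun c hc hcE y hy => ?_⟩
  have h3 := (h2 c hc hcE).2 (fun p hp _ => cube_rho c p hp) y hy
  rw [hdeg] at h3
  exact h3

end Pool.Agent.Results.MP_4d57ea_nt.CubesRestrictedDigits
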