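import Pool.Agent.U832.RH.GeE
import Pool.Agent.U832.RH.GenP
import Pool.Agent.Y879.GL.QuadU

/-!
# The almost primes `m ^ 3 + k` in a Poisson environment, in all short intervals, uniformly in `k`

For `|k| ≤ X ^ A`, `k` not a cube, consider the `m` such that `m ^ 3 + k` has no prime factor `≤ X ^ (1 / r)`.
Uniformly in `k`, and in all intervals of length `≥ X ^ θ`: the numbers of such `m` in disjoint windows, seen from an
arbitrary integer, from an arbitrary such `m` or from an arbitrary `m` for which `m ^ 3 + k` has at most `R` prime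
factors, all `> X ^ w`, are independent Poisson variables; here `R` and `w` do not depend on the windows.

For each fixed `k`, not a cube, the `m` for which `m ^ 3 + k` has at most FOUR prime factors, all `≥ X ^ (1 / 5)`, have
the right order of magnitude in each of these prescribed environments (and in short intervals, with more factors for
very short ones).
-/

set_option autoImplicit false

namespace Pool.Agent.Results.MP_4d57ea_nt.PoissonWindows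

open Finset Filter Pool.Agent.U832.RG Pool.Agent.U832.RH

/-- The `m ≥ 0` for which `m ^ 3 + k` has no prime factor `≤ y`. -/
def Rough (k : ℤ) (y : ℕ) : Set ℕ := {m | ∀ p : ℕ, p.Prime → p ≤ y → ¬ (p : ℤ) ∣ (m : ℤ) ^ 3 + k}

/-- The `m ≥ 0` for which `m ^ 3 + k` has at most `R` prime factors, counted with multiplicity, all `> z`. -/
def AlmostPrime (k : ℤ) (R z : ℕ) : Set ℕ :=
  {m | m ∈ Rough k z ∧ ((m : ℤ) ^ 3 + k).natAbs.primeFactorsList.length ≤ R}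

/-- The `m ≥ 0` for which `m ^ 3 + k` has at most `R` prime factors, counted with multiplicity, all `≥ z`. -/
def FewFactors (k : ℤ) (R : ℕ) (z : ℝ) : Set ℕ :=
  {m | ((m : ℤ) ^ 3 + k).natAbs.primeFactorsList.length ≤ R ∧
    ∀ p : ℕ, p.Prime → (p : ℤ) ∣ (m : ℤ) ^ 3 + k → z ≤ p}

/-- The `m ≥ 0` for which `m ^ 3 + k` has no prime factor `< z`. -/
def Free (k : ℤ) (z : ℝ) : Set ℕ := {m | ∀ p : ℕ, p.Prime → (p : ℝ) < z → ¬ (p : ℤ) ∣ (m : ℤ) ^ 3 + k}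

open Classical in
/-- The number of the solutions of `m ^ 3 + k = 0` modulo `p`. -/
noncomputable def roots (k : ℤ) (p : ℕ) : ℕ := ((range p).filter (fun m : ℕ => (p : ℤ) ∣ (m : ℤ) ^ 3 + k)).card

/-- The product of `1 - roots k p / p` over the primes `p ≤ y`. -/
noncomputable def V (k : ℤ) (y : ℕ) : ℝ := ∏ p ∈ (Icc 1 y).filter Nat.Prime, (1 - (roots k p : ℝ) / p)

/-- The product of `1 - 1 / p` over the primes `p ≤ y`. -/
noncomputable def mertens (y : ℕ) : ℝ := ∏ p ∈ (Icc 1 y).filter Nat.Prime, (1 - 1 / (p : ℝ))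

section aux

open Polynomial
open Pool.Agent.Y879.GL Pool.Agent.TH464.PO Pool.Agent.H373R2.T7 Pool.Agent.W123.RP
open Pool.Agent.W123.RU.Poly (Q Sys)

/-- the polynomial -/
noncomputable def f3 (k : ℤ) : ℤ[X] := X ^ 3 + C k

lemma f3_deg (k : ℤ) : (f3 k).natDegree = 3 := natDegree_X_pow_add_C

lemma f3_monic (k : ℤ) : (f3 k).Monic := monic_X_pow_add_C k three_ne_zero

lemma f3_eval (k x : ℤ) : (f3 k).eval x = x ^ 3 + k := by simp [f3]

lemma f3_irr (k : ℤ) (hk : ∀ m : ℤ, k ≠ m ^ 3) : Irreducible (f3 k) := by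
  apply irr_of_no_root _ (f3_monic k) (by rw [f3_deg]; norm_num) (by rw [f3_deg])
  intro z hz
  rw [f3_eval] at hz
  apply hk (-z)
  linarith [show (-z) ^ 3 = -z ^ 3 by ring]

lemma f3_adm (k : ℤ) (p : ℕ) (hp : p.Prime) : ∃ m : ℕ, ¬ (p : ℤ) ∣ (f3 k).eval (m : ℤ) := by
  by_contra hcon
  push Not at hcon
  have h0 := hcon 0
  have h1 := hcon 1
  rw [f3_eval] at h0 h1
  have h2 := dvd_sub h1 h0
  have h3 : (((1 : ℕ) : ℤ) ^ 3 + k - (((0 : ℕ) : ℤ) ^ 3 + k)) = ((1 : ℕ) : ℤ) := by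
    push_cast
    ring
  rw [h3] at h2
  exact hp.one_lt.ne' (Nat.dvd_one.1 (Int.natCast_dvd_natCast.1 h2))

lemma f3_coeff (k : ℤ) (n : ℕ) (B : ℤ) (h1 : 1 ≤ B) (hk : |k| ≤ B) : |(f3 k).coeff n| ≤ B := by
  unfold f3
  rw [coeff_add, coeff_X_pow, coeff_C]
  by_cases h3 : n = 3
  · subst h3
    simpa using h1
  · rw [if_neg h3]
    by_cases h0 : n = 0
    · rw [if_pos h0, zero_add]
      exact hk
    · rw [if_neg h0, zero_add, abs_zero]
      linarith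

/-- the system -/
noncomputable def fs (k : ℤ) : Fin 1 → ℤ[X] := fun _ => f3 k

lemma fs_Q (k : ℤ) (p m : ℕ) : Q (fs k) p m ↔ (p : ℤ) ∣ (m : ℤ) ^ 3 + k := by
  unfold Q fs
  rw [exists_const]
  rw [f3_eval]

lemma fs_sys (k : ℤ) (hk : ∀ m : ℤ, k ≠ m ^ 3) : Sys (fs k) where
  irr _ := f3_irr k hk
  deg _ := by
    show 0 < (f3 k).natDegree
    rw [f3_deg]
    norm_num
  lead _ := by
    show 0 < (f3 k).leadingCoeff
    rw [(f3_monic k).leadingCoeff]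
    exact one_pos
  inj := fun i j _ => Subsingleton.elim i j
  adm p hp := by
    obtain ⟨m, hm⟩ := f3_adm k p hp
    exact ⟨m, fun _ => hm⟩

lemma rough_iff (k : ℤ) (y n : ℕ) : Sf (Q (fs k)) y n ↔ n ∈ Rough k y := by
  unfold Sf Rough
  simp only [fs_Q, mem_pz, Set.mem_ofPred_eq]
  constructor
  · exact fun h p hp hpy => h p ⟨hpy, hp⟩
  · exact fun h p hp => h p hp.2 hp.1

lemma V_eq (k : ℤ) (y : ℕ) : Vq (Q (fs k)) y = V k y := by
  classical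
  unfold Vq V
  rw [pz_eq']
  apply Finset.prod_congr rfl
  intro p _
  congr 3
  unfold roots nuB
  congr 1
  ext m
  rw [mem_filter, mem_filter, fs_Q]

lemma mertens_eq (y : ℕ) : Vz y = mertens y := by
  unfold Vz mertens
  rw [pz_eq']

lemma us_k (A : ℕ) (k : ℤ) (hk : ∀ m : ℤ, k ≠ m ^ 3) (X : ℕ) (hX1 : 1 ≤ X) (hkX : |k| ≤ (X : ℤ) ^ A) (U : ℝ) :
    US 1 3 ((X : ℝ) ^ ((A : ℝ) + 1)) U (fs k) := by
  have hX1' : (1 : ℤ) ≤ (X : ℤ) ^ A := one_le_pow₀ (by exact_mod_cast hX1)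
  have hX1r : (1 : ℝ) ≤ X := by exact_mod_cast hX1
  apply us_single (f3 k) (f3_irr k hk)
  · rw [f3_deg]
    norm_num
  · rw [f3_deg]
  · intro n
    have h4 := f3_coeff k n ((X : ℤ) ^ A) hX1' hkX
    have h5 : |(((f3 k).coeff n : ℤ) : ℝ)| ≤ (X : ℝ) ^ A := by exact_mod_cast h4
    refine h5.trans ?_
    rw [← Real.rpow_natCast]
    exact Real.rpow_le_rpow_of_exponent_le hX1r (by linarith)
  · intro p hp
    exact f3_adm k p hp

lemma V_up (r : ℕ) (hr : 2 ≤ r) (B : ℝ) : ∃ Cv : ℝ, 0 < Cv ∧ ∀ᶠ X : ℕ in atTop,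
    ∀ y : ℕ, y = ⌊(X : ℝ) ^ (1 / (r : ℝ))⌋₊ → B * mertens y ≤ Cv / Real.log X := by
  obtain ⟨C, hC, hVz⟩ := Vz_up r hr
  refine ⟨(|B| + 1) * C, by positivity, ?_⟩
  filter_upwards [hVz] with X hX y hy
  rw [← hy, mertens_eq] at hX
  have h0 : B ≤ |B| + 1 := by
    have := le_abs_self B
    linarith
  calc B * mertens y ≤ (|B| + 1) * mertens y := mul_le_mul_of_nonneg_right h0 hX.1
    _ ≤ (|B| + 1) * (C / Real.log X) := mul_le_mul_of_nonneg_left hX.2 (by positivity)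
    _ = (|B| + 1) * C / Real.log X := by ring

lemma almost_iff (A : ℕ) (k : ℤ) (X z m : ℕ) (w : ℝ) (hw : 0 < w) (hX : 2 ≤ X) (hz : z = ⌊(X : ℝ) ^ w⌋₊) (hz2 : 2 ≤ z)
    (hkX : |k| ≤ (X : ℤ) ^ A) (hm : m ≤ X ^ A) :
    m ∈ AlmostPrime k ⌊((3 * A + 1 : ℕ) : ℝ) / w⌋₊ z ↔ m ∈ Rough k z := by
  refine ⟨fun h => h.1, fun h => ⟨h, ?_⟩⟩
  apply few_factors X w ((3 * A + 1 : ℕ) : ℝ) hX hw
  · intro h0
    rw [Int.natAbs_eq_zero] at h0
    exact h 2 Nat.prime_two hz2 (by rw [h0]; exact dvd_zero _)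
  · rw [Real.rpow_natCast]
    have h1 : ((m : ℤ) ^ 3 + k).natAbs ≤ X ^ (3 * A + 1) := by
      have h2 : ((m : ℤ) ^ 3 + k).natAbs ≤ ((m : ℤ) ^ 3).natAbs + k.natAbs := Int.natAbs_add_le _ _
      have h3 : ((m : ℤ) ^ 3).natAbs = m ^ 3 := by rw [Int.natAbs_pow, Int.natAbs_natCast]
      have h4 : k.natAbs ≤ X ^ A := by
        have : ((k.natAbs : ℕ) : ℤ) ≤ ((X ^ A : ℕ) : ℤ) := by
          rw [Int.natCast_natAbs]
          push_cast
          exact hkX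
        exact_mod_cast this
      have h5 : m ^ 3 ≤ (X ^ A) ^ 3 := Nat.pow_le_pow_left hm 3
      have h6 : X ^ A ≤ (X ^ A) ^ 3 := Nat.le_self_pow (by norm_num) _
      have h7 : 2 * (X ^ A) ^ 3 ≤ X * (X ^ A) ^ 3 := Nat.mul_le_mul_right _ hX
      have h8 : X ^ (3 * A + 1) = X * (X ^ A) ^ 3 := by
        rw [← pow_mul, pow_succ]
        ring
      omega
    exact_mod_cast h1
  · intro p hp hpz hd
    exact h p hp (by rw [hz]; exact hpz) (Int.natCast_dvd.2 hd)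

open Pool.Agent.U832.RH in
theorem four (k : ℤ) (hk : ∀ m : ℤ, k ≠ m ^ 3) (θ : ℝ) (hθ : 0 < θ) (hθ1 : θ ≤ 1) (R : ℕ)
    (hR : 9 / 8 + 25 / (8 * θ) < R + 1) :
    ∃ c C : ℝ, 0 < c ∧ 0 < C ∧ ∀ (J L : ℕ) (x₀ ε : ℝ), 0 < ε → ∃ r₀ : ℕ, ∀ r : ℕ, r₀ ≤ r → ∀ᶠ X : ℕ in atTop,
      ∀ y : ℕ, y = ⌊(X : ℝ) ^ (1 / (r : ℝ))⌋₊ →
      ∀ Z Y T : ℕ, Z + Y ≤ X → (X : ℝ) ^ θ ≤ Y → T * V k y ≤ x₀ →
      ∀ (s : ℕ) (a b l : Fin J → ℕ), Windows T s a b → (∀ j, l j ≤ L) →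
      (c * ∏ j, poisson (l j) ((b j - a j : ℕ) * V k y) - ε) * (Y / Real.log X) ≤
        seen (FewFactors k R ((X : ℝ) ^ (θ / 5))) (Rough k y) s a b l Z Y ∧
      (seen (Free k ((X : ℝ) ^ (θ / 4))) (Rough k y) s a b l Z Y : ℝ) ≤
        (C * ∏ j, poisson (l j) ((b j - a j : ℕ) * V k y) + ε) * (Y / Real.log X) := by
  obtain ⟨g, hg⟩ : ∃ g : ℕ → ℕ, g = fun m : ℕ => ((m : ℤ) ^ 3 + k).natAbs := ⟨_, rfl⟩
  have hR' : 9 / 8 + 25 * ((f3 k).natDegree : ℝ) / (24 * θ) < R + 1 := by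
    rw [f3_deg]
    have : 25 * ((3 : ℕ) : ℝ) / (24 * θ) = 25 / (8 * θ) := by
      push_cast
      field_simp
      norm_num
    rw [this]
    exact hR
  have hd : 0 < (f3 k).natDegree := by rw [f3_deg]; norm_num
  have hl : 0 < (f3 k).leadingCoeff := by rw [(f3_monic k).leadingCoeff]; norm_num
  have h := genP (f3 k) (f3_irr k hk) hd hl (f3_adm k) g (fun m => by rw [f3_eval, hg]) θ hθ hθ1 R hR'
  have e1 : ∀ y, Pool.Agent.U832.RG.Rough g y = Rough k y := by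
    intro y
    ext m
    unfold Pool.Agent.U832.RG.Rough Rough
    simp only [Set.mem_ofPred_eq, hg, Int.natCast_dvd]
  have e2 : ∀ y, Pool.Agent.U832.RG.V g y = V k y := by
    intro y
    unfold Pool.Agent.U832.RG.V V
    apply Finset.prod_congr rfl
    intro p _
    congr 3
    unfold Pool.Agent.U832.RG.w roots
    congr 1
    ext m
    rw [mem_filter, mem_filter, hg, Int.natCast_dvd]
  have e3 : ∀ z, Pool.Agent.U832.RH.AlmostPrime g R z = FewFactors k R z := by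
    intro z
    ext m
    unfold Pool.Agent.U832.RH.AlmostPrime FewFactors
    simp only [Set.mem_ofPred_eq, hg, Int.natCast_dvd]
  have e4 : ∀ z, Pool.Agent.U832.RH.FreeOf g z = Free k z := by
    intro z
    ext m
    unfold Pool.Agent.U832.RH.FreeOf Free
    simp only [Set.mem_ofPred_eq, hg, Int.natCast_dvd]
  simp only [e1, e2, e3, e4] at h
  exact h

end aux

/-- The uniform law. -/
theorem uniform (A : ℕ) (θ δ : ℝ) (hθ : 0 < θ) (hδ : 0 < δ) :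
    ∃ w : ℝ, 0 < w ∧ ∃ R : ℕ,
    (∀ (J L : ℕ) (x₀ ε : ℝ), 0 < ε → ∃ r₀ : ℕ, ∀ r : ℕ, r₀ ≤ r → ∀ B : ℝ, ∀ᶠ X : ℕ in atTop,
      ∀ y z : ℕ, y = ⌊(X : ℝ) ^ (1 / (r : ℝ))⌋₊ → z = ⌊(X : ℝ) ^ w⌋₊ →
      ∀ k : ℤ, (∀ m : ℤ, k ≠ m ^ 3) → |k| ≤ (X : ℤ) ^ A → V k y ≤ B * mertens y →
      ∀ Z Y T : ℕ, (X : ℝ) ^ θ ≤ Y → T * V k y ≤ x₀ → PoissonLaw (Rough k y) (V k y) J L ε Z Y T ∧
        (Z + Y + T ≤ X ^ A →
          CentreLaw (AlmostPrime k R z) (Rough k y) (V k z) (V k y) J L δ ε Z Y T)) ∧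
    ∀ k : ℤ, (∀ m : ℤ, k ≠ m ^ 3) → ∃ B : ℝ, ∀ y : ℕ, 3 ≤ y → V k y ≤ B * mertens y := by
  obtain ⟨w, hw, hG⟩ := lawG_polys 1 3 ((A : ℝ) + 1) 1 θ (by positivity) one_pos hθ δ hδ
  refine ⟨w, hw, ⌊((3 * A + 1 : ℕ) : ℝ) / w⌋₊, ?_, ?_⟩
  · intro J L x₀ ε hε
    obtain ⟨r₁, h⟩ := law_polys 1 3 ((A : ℝ) + 1) 1 θ (by positivity) one_pos hθ J L x₀ ε hε
    obtain ⟨r₂, h'⟩ := hG w hw le_rfl J L x₀ ε hε
    refine ⟨max (max r₁ r₂) 2, fun r hr B => ?_⟩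
    obtain ⟨Cv, hCv, hV⟩ := V_up r ((le_max_right _ _).trans hr) B
    have hpow : Tendsto (fun X : ℕ => (X : ℝ) ^ w) atTop atTop :=
      (tendsto_rpow_atTop hw).comp tendsto_natCast_atTop_atTop
    filter_upwards [h r (((le_max_left _ _).trans (le_max_left _ _)).trans hr) Cv,
      h' r (((le_max_right _ _).trans (le_max_left _ _)).trans hr) Cv, hV, eventually_ge_atTop 2,
      hpow.eventually_ge_atTop 2] with X hX hX' hVX hX2 hXw
    intro y z hy hz k hk hkX hVk Z Y T hY hT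
    have hz2 : 2 ≤ z := by
      rw [hz]
      exact Nat.le_floor (by exact_mod_cast hXw)
    have hus := us_k A k hk X (by omega) hkX ((X : ℝ) ^ (1 : ℝ))
    constructor
    · have h4 := hX (fs k) hus
        (by rw [← hy, V_eq]; exact hVk.trans (hVX y hy)) Z Y hY T
      rw [← hy, V_eq] at h4
      exact h4 hT (Rough k y) (fun m _ => (rough_iff k y m).symm)
    · intro hZ
      have h4 := hX' y z hy hz (fs k) hus (by rw [V_eq]; exact hVk.trans (hVX y hy)) Z Y hY T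
      rw [V_eq, V_eq] at h4
      exact h4 hT (AlmostPrime k ⌊((3 * A + 1 : ℕ) : ℝ) / w⌋₊ z) (Rough k y) (fun m _ => (rough_iff k y m).symm)
        (fun m hm => (almost_iff A k X z m w hw hX2 hz hz2 hkX (hm.trans hZ)).trans (rough_iff k z m).symm)
  · intro k hk
    obtain ⟨v, Cv, hv, hCv, hV⟩ := Pool.Agent.W123.RU.Poly.V_bounds (fs k) (fs_sys k hk)
    obtain ⟨c, C, hc, hC, hVz⟩ := Pool.Agent.W123.RP.Vz_bounds
    refine ⟨Cv / c, fun y hy => ?_⟩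
    have h1 := (hV y hy).2
    have h2 := (hVz y (by omega)).1
    rw [V_eq, Fintype.card_fin, pow_one] at h1
    rw [mertens_eq] at h2
    have hlog : 0 < Real.log y := Real.log_pos (by exact_mod_cast (by omega : 1 < y))
    calc V k y ≤ Cv / Real.log y := h1
      _ = Cv / c * (c / Real.log y) := by field_simp
      _ ≤ Cv / c * mertens y := mul_le_mul_of_nonneg_left h2 (by positivity)

/-- (I) Uniformly in `k`: let `A` be a natural number and `θ, δ > 0`. There are `w > 0` and `R`, such that: (1) for all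
`J`, `L`, `x₀`, all `ε > 0`, all large `r` and all `B`: for all large `X`, with `y = ⌊X ^ (1 / r)⌋`, `z = ⌊X ^ w⌋`, for
ALL integers `k` that are not cubes, with `|k| ≤ X ^ A` and `V k y ≤ B ∏ (1 - 1 / p)` (product over the primes
`p ≤ y`), ALL intervals `(Z, Z + Y]` with `Y ≥ X ^ θ` and all `T` with `T V ≤ x₀`, `V = V k y`:
(1a) the set `Rough k y` satisfies `PoissonLaw`: for all disjoint windows `(a j, b j] ⊆ (0, T]`, `j < J`, all `s ≤ T`
outside of them and all `c j ≤ L`, the number of the `n` in `(Z, Z + Y]` with `n + s ∈ Rough k y` and exactly `c j`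
elements of `Rough k y` in `(n + a j, n + b j]` for all `j` is `Y V Π` up to `ε Y V`, where `Π` is the product of the
probabilities that a Poisson variable of mean `(b j - a j) V` has the value `c j`; and the same without the condition
on `n + s`, with `Y` instead of `Y V`;
(1b) if `Z + Y + T ≤ X ^ A`, the number of the `n` in `(Z, Z + Y]` with `n + s ∈ AlmostPrime k R z`, with the same
windows, is `Y W Π` up to `(δ Π + ε) Y W`, `W = V k z`.
(2) Every fixed `k` which is not a cube satisfies the condition on `V k y`, with some `B = B (k)`.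

(II) For each `k`: let `k` not be a cube, `0 < θ ≤ 1`, and let `R` be an integer with `9 / 8 + 25 / (8 θ) < R + 1` (for
instance `R = 4`, `0.81 ≤ θ ≤ 1`). There are `c, C > 0` such that for all `J`, `L`, `x₀`, all `ε > 0`, all large `r` and
all large `X`, with `y = ⌊X ^ (1 / r)⌋`, for ALL intervals `(Z, Z + Y]` with `X ^ θ ≤ Y`, `Z + Y ≤ X`, and the same
windows: the number of the `n` in `(Z, Z + Y]` for which `(n + s) ^ 3 + k` has at most `R` prime factors, all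
`≥ X ^ (θ / 5)`, and for which the windows contain exactly `l j` elements of `Rough k y`, is at least
`(c Π - ε) Y / log X`; the number of those for which `(n + s) ^ 3 + k` has no prime factor `< X ^ (θ / 4)` is at most
`(C Π + ε) Y / log X`. -/
theorem result :
    (∀ (A : ℕ) (θ δ : ℝ), 0 < θ → 0 < δ → ∃ w : ℝ, 0 < w ∧ ∃ R : ℕ,
      (∀ (J L : ℕ) (x₀ ε : ℝ), 0 < ε → ∃ r₀ : ℕ, ∀ r : ℕ, r₀ ≤ r → ∀ B : ℝ, ∀ᶠ X : ℕ in atTop,
        ∀ y z : ℕ, y = ⌊(X : ℝ) ^ (1 / (r : ℝ))⌋₊ → z = ⌊(X : ℝ) ^ w⌋₊ →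
        ∀ k : ℤ, (∀ m : ℤ, k ≠ m ^ 3) → |k| ≤ (X : ℤ) ^ A → V k y ≤ B * mertens y →
        ∀ Z Y T : ℕ, (X : ℝ) ^ θ ≤ Y → T * V k y ≤ x₀ → PoissonLaw (Rough k y) (V k y) J L ε Z Y T ∧
          (Z + Y + T ≤ X ^ A →
            CentreLaw (AlmostPrime k R z) (Rough k y) (V k z) (V k y) J L δ ε Z Y T)) ∧
      ∀ k : ℤ, (∀ m : ℤ, k ≠ m ^ 3) → ∃ B : ℝ, ∀ y : ℕ, 3 ≤ y → V k y ≤ B * mertens y) ∧
    ∀ k : ℤ, (∀ m : ℤ, k ≠ m ^ 3) → ∀ θ : ℝ, 0 < θ → θ ≤ 1 → ∀ R : ℕ, 9 / 8 + 25 / (8 * θ) < R + 1 →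
    ∃ c C : ℝ, 0 < c ∧ 0 < C ∧ ∀ (J L : ℕ) (x₀ ε : ℝ), 0 < ε → ∃ r₀ : ℕ, ∀ r : ℕ, r₀ ≤ r → ∀ᶠ X : ℕ in atTop,
      ∀ y : ℕ, y = ⌊(X : ℝ) ^ (1 / (r : ℝ))⌋₊ →
      ∀ Z Y T : ℕ, Z + Y ≤ X → (X : ℝ) ^ θ ≤ Y → T * V k y ≤ x₀ →
      ∀ (s : ℕ) (a b l : Fin J → ℕ), Windows T s a b → (∀ j, l j ≤ L) →
      (c * ∏ j, poisson (l j) ((b j - a j : ℕ) * V k y) - ε) * (Y / Real.log X) ≤
        seen (FewFactors k R ((X : ℝ) ^ (θ / 5))) (Rough k y) s a b l Z Y ∧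
      (seen (Free k ((X : ℝ) ^ (θ / 4))) (Rough k y) s a b l Z Y : ℝ) ≤
        (C * ∏ j, poisson (l j) ((b j - a j : ℕ) * V k y) + ε) * (Y / Real.log X) :=
  ⟨fun A θ δ hθ hδ => uniform A θ δ hθ hδ, fun k hk θ hθ hθ1 R hR => four k hk θ hθ hθ1 R hR⟩

end Pool.Agent.Results.MP_4d57ea_nt.PoissonWindows
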