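import Pool.Agent.U163.SU.Uni

/-!
# `m³ + k` with `m` a prime or twice a prime: strings of consecutive primes with almost prime values,
uniformly in all non-cubes `k`

The question asks for infinitely many primes `m³ + k` for every `k` which is not a cube. If `k` is even then `m` is
odd, and if `k` is odd then `m` is even (for primes `m³ + k > 2`). Here `m = e p` with `e = 1` for even `k` and `e = 2`
for odd `k`, and `p` runs through strings of consecutive primes: for ALL non-cubes `k`, `|k| ≤ N ^ A`, a positive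
proportion of the patterns `H` of `m` elements of any given large finite set are patterns of consecutive primes
`x + h`, `h ∈ H`, such that the numbers `|(e (x + h))³ + k|` have a bounded number of prime factors, all larger than
a power of `N`, for at least `N / (log N) ^ B` of the `x` in `(N, 2 N]`. There is no exceptional `k`.

The starting file `PoissonWindows` of this problem is about arguments which are not prime; the other files of this
problem have exceptional `k`.

Proof. The theorem `R498.MP.stringsUR` of the starting library (Maynard-Tao theorem for strings of consecutive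
primes with almost prime polynomial values, uniformly in the polynomial; it is used by starting hand-ins only for
Goldbach's problem) is applied to `e³ X³ + k`, which has no zeros at integers if `k` is not a cube; the proportion
of the patterns follows by double counting (`Helper32K9.Str`).
-/

set_option autoImplicit false

namespace Pool.Agent.Results.MP_4d57ea_nt.PrimeCubes

open Finset Filter Polynomial

/-- `n` has at most `r` prime factors, counted with multiplicity, all of them at least `w`. -/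
def AlmostPrime (r : ℕ) (w : ℝ) (n : ℕ) : Prop :=
  n.primeFactorsList.length ≤ r ∧ ∀ q : ℕ, q.Prime → q ∣ n → w ≤ q

/-- `1` for even `k` and `2` for odd `k` -/
def mult (k : ℤ) : ℕ := if Even k then 1 else 2

/-- The integers `x` with `N < x`, `x + max H ≤ 2 N`, such that the primes in the interval `[x, x + max H]` are
exactly the numbers `x + h`, `h ∈ H`, all of them are `≡ a` modulo `q`, and for all of them the number
`|(e (x + h))³ + k|`, `e = mult k`, has at most `r` prime factors, all of them at least `N ^ δ`. -/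
def places (k : ℤ) (N q a r : ℕ) (δ : ℝ) (H : Finset ℕ) : Set ℕ :=
  {x | N < x ∧ x + H.sup id ≤ 2 * N ∧ (∀ y ≤ H.sup id, (x + y).Prime ↔ y ∈ H) ∧
    ∀ h ∈ H, x + h ≡ a [MOD q] ∧
      AlmostPrime r ((N : ℝ) ^ δ) ((mult k * (x + h : ℕ) : ℤ) ^ 3 + k).natAbs}

/-- the polynomial -/
noncomputable def fam (k : ℤ) : ℤ[X] := C ((mult k : ℤ) ^ 3) * X ^ 3 + C k

theorem fam_eval (k x : ℤ) : (fam k).eval x = (mult k * x) ^ 3 + k := by
  unfold fam
  simp
  ring

theorem fam_deg (k : ℤ) : (fam k).natDegree ≤ 3 := by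
  unfold fam
  refine (natDegree_add_le _ _).trans (max_le (natDegree_C_mul_X_pow_le _ _) ?_)
  rw [natDegree_C]
  omega

theorem fam_adm (k : ℤ) (p : ℕ) (hp : p.Prime) :
    ∃ n : ℤ, ¬ (p : ℤ) ∣ n ∧ ¬ (p : ℤ) ∣ (fam k).eval n := by
  have hpZ : Prime (p : ℤ) := Nat.prime_iff_prime_int.1 hp
  have h1 : ¬ (p : ℤ) ∣ 1 := fun h => hp.one_lt.ne' (Nat.dvd_one.1 (by exact_mod_cast h))
  by_cases hp2 : p = 2
  · subst hp2
    refine ⟨1, h1, ?_⟩
    rw [fam_eval]
    unfold mult
    split_ifs with h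
    · obtain ⟨u, hu⟩ := h
      rw [hu]
      push_cast
      omega
    · rw [Int.not_even_iff_odd] at h
      obtain ⟨u, hu⟩ := h
      rw [hu]
      push_cast
      omega
  have h2 : ¬ (p : ℤ) ∣ 2 := by
    intro h
    have : p ∣ 2 := by exact_mod_cast h
    exact hp2 ((Nat.prime_dvd_prime_iff_eq hp Nat.prime_two).1 this)
  have he : ¬ (p : ℤ) ∣ (mult k : ℤ) := by
    unfold mult
    split_ifs
    · exact_mod_cast h1
    · exact_mod_cast h2
  by_contra hcon
  push Not at hcon
  -- the value at `1` and `-1`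
  have hm1 : ¬ (p : ℤ) ∣ -1 := fun h => h1 ((dvd_neg).1 h)
  have e1 := hcon 1 h1
  have e2 := hcon (-1) hm1
  rw [fam_eval] at e1 e2
  have e3 : (p : ℤ) ∣ 2 * (mult k : ℤ) ^ 3 := by
    have := dvd_sub e1 e2
    ring_nf at this
    rwa [mul_comm]
  rcases hpZ.dvd_or_dvd e3 with h3 | h3
  · exact h2 h3
  · exact he (hpZ.dvd_of_dvd_pow h3)

theorem fam_bd (k : ℤ) (N A : ℕ) (hN : 3 ≤ N) (hk : |k| ≤ (N : ℤ) ^ A) (x : ℤ)
    (hx : |x| ≤ 2 * N) : |(fam k).eval x| ≤ (N : ℤ) ^ (A + 7) := by
  rw [fam_eval]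
  have hN' : (3 : ℤ) ≤ N := by exact_mod_cast hN
  have h1 : (1 : ℤ) ≤ (N : ℤ) ^ A := one_le_pow₀ (by linarith)
  have he : |(mult k : ℤ)| ≤ 2 := by
    unfold mult
    split_ifs <;> norm_num
  have hx3 : |(mult k * x) ^ 3| ≤ (4 * N) ^ 3 := by
    rw [abs_pow, abs_mul]
    calc (|(mult k : ℤ)| * |x|) ^ 3 ≤ ((2 : ℤ) * (2 * (N : ℤ))) ^ 3 := by gcongr
      _ = (4 * (N : ℤ)) ^ 3 := by ring
  have hN7 : (4 * (N : ℤ)) ^ 3 + 1 ≤ (N : ℤ) ^ 7 := by
    have h81 : (81 : ℤ) ≤ (N : ℤ) ^ 4 := by
      calc (81 : ℤ) = 3 ^ 4 := by norm_num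
        _ ≤ (N : ℤ) ^ 4 := by gcongr
    have h27 : (1 : ℤ) ≤ (N : ℤ) ^ 3 := one_le_pow₀ (by linarith)
    calc (4 * (N : ℤ)) ^ 3 + 1 = 64 * (N : ℤ) ^ 3 + 1 := by ring
      _ ≤ 81 * (N : ℤ) ^ 3 := by linarith
      _ ≤ (N : ℤ) ^ 4 * (N : ℤ) ^ 3 := by gcongr
      _ = (N : ℤ) ^ 7 := by ring
  calc |(mult k * x) ^ 3 + k| ≤ |(mult k * x) ^ 3| + |k| := abs_add_le _ _
    _ ≤ (4 * N) ^ 3 + (N : ℤ) ^ A := add_le_add hx3 hk
    _ ≤ (N : ℤ) ^ A * ((4 * N) ^ 3 + 1) := by nlinarith [pow_nonneg (by linarith : (0 : ℤ) ≤ 4 * N) 3]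
    _ ≤ (N : ℤ) ^ A * (N : ℤ) ^ 7 := by gcongr
    _ = (N : ℤ) ^ (A + 7) := by rw [pow_add]

/-- **Strings of consecutive primes `p` with almost prime `(e p)³ + k`, uniformly in the non-cubes `k`.** Let
`m ≥ 1` and let `q` be squarefree. There are `K`, `B` and `δ > 0` such that for every `A` there is an `r` such that for
every finite set `T` of at least `K` nonnegative integers and all large `N` the following holds for ALL integers `k`
with `|k| ≤ N ^ A` which are not cubes, with `e = 1` for even `k` and `e = 2` for odd `k`, and all `a` for which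
`a ((e a)³ + k)` is prime to `q` (for instance `q = 1`): for at least the proportion `1 / K` of the subsets `H` of `T`
with `m` elements there are at least `N / (log N) ^ B` integers `x`, `N < x`, `x + max H ≤ 2 N`, such that the primes
in `[x, x + max H]` are exactly the numbers `x + h`, `h ∈ H`, all of them are `≡ a` modulo `q`, and all the
`|(e (x + h))³ + k|` have at most `r` prime factors, all of them at least `N ^ δ`. -/
theorem result (m : ℕ) (hm : 1 ≤ m) (q : ℕ) (hq : Squarefree q) :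
    ∃ (K B : ℕ) (δ : ℝ), 0 < K ∧ 0 < δ ∧ ∀ A : ℕ, ∃ r : ℕ, ∀ T : Finset ℕ, K ≤ T.card →
      ∀ᶠ N : ℕ in atTop, ∀ k : ℤ, |k| ≤ (N : ℤ) ^ A → (¬ ∃ b : ℤ, k = b ^ 3) →
      ∀ a : ℕ, IsCoprime ((a : ℤ) * ((mult k * a) ^ 3 + k)) (q : ℤ) →
      T.card.choose m ≤ K * {H : Finset ℕ | H ⊆ T ∧ H.card = m ∧
        (N : ℝ) / Real.log N ^ B ≤ (places k N q a r δ H).ncard}.ncard := by
  classical
  obtain ⟨K, B, δ, hK, hδ, hmain⟩ := Pool.Agent.U163.SU.uni_prod 1 3 q hq m hm
  refine ⟨K, B, δ, hK, hδ, fun A => ?_⟩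
  obtain ⟨r, hr⟩ := hmain (A + 7)
  refine ⟨r, fun T hT => ?_⟩
  filter_upwards [hr T hT, eventually_ge_atTop 3] with N hN hN3
  intro k hkA hk a ha
  refine (hN (fun _ => fam k) (fun _ => fam_deg k)
    (fun p hp => by
      obtain ⟨x, hx, hx'⟩ := fam_adm k p hp
      exact ⟨x, hx, fun _ => hx'⟩)
    (fun _ x hx => fam_bd k N A hN3 hkA x hx)
    (fun _ x _ _ => by
      rw [fam_eval]
      intro h0
      exact hk ⟨-(mult k * x), by linear_combination h0⟩)
    a (fun p hp hpq => by
      have hnd : ¬ (p : ℤ) ∣ (a : ℤ) * ((mult k * a) ^ 3 + k) := by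
        intro h
        have h1 : (p : ℤ) ∣ (q : ℤ) := Int.natCast_dvd_natCast.2 hpq
        have h2 : IsUnit (p : ℤ) := ha.isUnit_of_dvd' h h1
        rw [Int.isUnit_iff] at h2
        have h3 := hp.one_lt
        omega
      refine ⟨fun h => hnd (h.mul_right _), fun _ h => hnd ?_⟩
      rw [fam_eval] at h
      exact h.mul_left _)).trans (Nat.mul_le_mul_left _ ?_)
  have heq : ∀ H, Pool.Agent.U163.SU.placesP (fun _ : Fin 1 => fam k) N q a r δ H ⊆
      places k N q a r δ H := by
    rintro H x ⟨h1, h2, h3, h4⟩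
    refine ⟨h1, h2, h3, fun h hh => ⟨(h4 h hh).1, ?_⟩⟩
    have h5 := ((h4 h hh).2 0).2
    rw [fam_eval] at h5
    exact h5
  have hfin : ∀ P : Finset ℕ → Prop, {H : Finset ℕ | H ⊆ T ∧ H.card = m ∧ P H}.Finite := by
    intro P
    apply (T.powersetCard m).finite_toSet.subset
    rintro H ⟨h1, h2, -⟩
    exact Finset.mem_coe.2 (Finset.mem_powersetCard.2 ⟨h1, h2⟩)
  apply Set.ncard_le_ncard _ (hfin _)
  rintro H ⟨h1, h2, h3⟩
  refine ⟨h1, h2, h3.trans (Nat.cast_le.2 (Set.ncard_le_ncard (heq H) ?_))⟩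
  refine (Set.finite_Iic (2 * N)).subset fun n hn => ?_
  have h1 : n + H.sup id ≤ 2 * N := hn.2.1
  rw [Set.mem_Iic]
  omega

end Pool.Agent.Results.MP_4d57ea_nt.PrimeCubes
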